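import Mathlib

/-! # Project NR: norms of products of real polynomials, and shift operators -/

set_option autoImplicit false

namespace Pool.Agent.P8H21.NR

open Polynomial Finset

/-- sum of the absolute values of the coefficients -/
noncomputable def l1 (p : ℝ[X]) : ℝ := p.sum fun _ a => |a|

theorem l1_eq (p : ℝ[X]) : l1 p = ∑ i ∈ range (p.natDegree + 1), |p.coeff i| := by
  unfold l1
  rw [sum_over_range]
  intro n; simp

theorem l1_nonneg (p : ℝ[X]) : 0 ≤ l1 p := by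
  rw [l1_eq]; exact Finset.sum_nonneg fun _ _ => abs_nonneg _

theorem le_l1 (p : ℝ[X]) (i : ℕ) : |p.coeff i| ≤ l1 p := by
  rw [l1_eq]
  by_cases h : i ≤ p.natDegree
  · exact Finset.single_le_sum (f := fun i => |p.coeff i|) (fun _ _ => abs_nonneg _)
      (Finset.mem_range.2 (by omega))
  · rw [coeff_eq_zero_of_natDegree_lt (by omega), abs_zero]
    exact Finset.sum_nonneg fun _ _ => abs_nonneg _

theorem isom : Isometry (algebraMap ℝ ℂ) := by
  refine AddMonoidHomClass.isometry_of_norm _ fun x => ?_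
  simp

theorem l1_le (p : ℝ[X]) : l1 p ≤ 2 ^ p.natDegree * p.mapMahlerMeasure (algebraMap ℝ ℂ) := by
  rw [l1_eq]
  have h : ∀ i ∈ range (p.natDegree + 1),
      |p.coeff i| ≤ (p.natDegree.choose i : ℝ) * p.mapMahlerMeasure (algebraMap ℝ ℂ) := by
    intro i _
    have := norm_coeff_le_choose_mul_mapMahlerMeasure (algebraMap ℝ ℂ) isom i p
    rwa [Real.norm_eq_abs] at this
  refine (Finset.sum_le_sum h).trans (le_of_eq ?_)
  rw [← Finset.sum_mul]
  congr 1
  have := Nat.sum_range_choose p.natDegree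
  exact_mod_cast this

theorem le_mahler (p : ℝ[X]) : p.mapMahlerMeasure (algebraMap ℝ ℂ) ≤ l1 p := by
  have := mapMahlerMeasure_le_sum_norm_coeff p (algebraMap ℝ ℂ) isom
  simpa [l1, Real.norm_eq_abs] using this

/-- Gelfond's inequality -/
theorem gelfond (p q : ℝ[X]) (hp : p ≠ 0) (hq : q ≠ 0) :
    l1 p * l1 q ≤ 2 ^ (p * q).natDegree * l1 (p * q) := by
  have h1 := l1_le p
  have h2 := l1_le q
  have h3 := le_mahler (p * q)
  rw [mapMahlerMeasure_mul] at h3
  have h4 : (p * q).natDegree = p.natDegree + q.natDegree := natDegree_mul hp hq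
  calc l1 p * l1 q ≤ (2 ^ p.natDegree * p.mapMahlerMeasure (algebraMap ℝ ℂ)) *
        (2 ^ q.natDegree * q.mapMahlerMeasure (algebraMap ℝ ℂ)) :=
        mul_le_mul h1 h2 (l1_nonneg _) (mul_nonneg (by positivity) (mapMahlerMeasure_nonneg _ _))
    _ = 2 ^ (p * q).natDegree * (p.mapMahlerMeasure (algebraMap ℝ ℂ) *
        q.mapMahlerMeasure (algebraMap ℝ ℂ)) := by rw [h4, pow_add]; ring
    _ ≤ _ := by gcongr

/-- the shift -/
def E : Module.End ℝ (ℕ → ℝ) where
  toFun y n := y (n + 1)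
  map_add' _ _ := rfl
  map_smul' _ _ := rfl

theorem E_pow (n : ℕ) (y : ℕ → ℝ) (x : ℕ) : (E ^ n) y x = y (x + n) := by
  induction n generalizing x with
  | zero => simp
  | succ n ih =>
    rw [pow_succ']
    show (E ^ n) y (x + 1) = _
    rw [ih]; congr 1; ring

theorem aev (p : ℝ[X]) (y : ℕ → ℝ) (x : ℕ) :
    (aeval E p) y x = ∑ i ∈ range (p.natDegree + 1), p.coeff i * y (x + i) := by
  rw [aeval_eq_sum_range]
  simp [LinearMap.sum_apply, Finset.sum_apply, E_pow]

theorem aev' (p : ℝ[X]) (N : ℕ) (hN : p.natDegree ≤ N) (y : ℕ → ℝ) (x : ℕ) :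
    (aeval E p) y x = ∑ i ∈ range (N + 1), p.coeff i * y (x + i) := by
  rw [aev]
  refine Finset.sum_subset (Finset.range_subset_range.2 (by omega)) fun i _ hi => ?_
  rw [Finset.mem_range, not_lt] at hi
  rw [coeff_eq_zero_of_natDegree_lt (by omega), zero_mul]

theorem aev_bound (p : ℝ[X]) (y : ℕ → ℝ) (x : ℕ) (δ : ℝ)
    (h : ∀ m ≤ p.natDegree, |y (x + m)| ≤ δ) : |(aeval E p) y x| ≤ l1 p * δ := by
  rw [aev, l1_eq, Finset.sum_mul]
  refine (Finset.abs_sum_le_sum_abs _ _).trans (Finset.sum_le_sum fun i hi => ?_)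
  rw [Finset.mem_range] at hi
  rw [abs_mul]
  exact mul_le_mul_of_nonneg_left (h i (by omega)) (abs_nonneg _)

/-- the polynomial with given coefficients -/
noncomputable def pol (D : ℕ) (α : ℕ → ℝ) : ℝ[X] := ∑ l ∈ range (D + 1), monomial l (α l)

theorem pol_coeff (D : ℕ) (α : ℕ → ℝ) (i : ℕ) (hi : i ≤ D) : (pol D α).coeff i = α i := by
  unfold pol
  rw [finsetSum_coeff]
  simp only [coeff_monomial]
  rw [Finset.sum_ite_eq' (range (D + 1)) i α]
  simp [hi]

theorem pol_natDegree (D : ℕ) (α : ℕ → ℝ) : (pol D α).natDegree ≤ D := by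
  unfold pol
  refine natDegree_sum_le_of_forall_le _ _ fun i hi => ?_
  rw [Finset.mem_range] at hi
  exact (natDegree_monomial_le _).trans (by omega)

theorem pol_aev (D : ℕ) (α : ℕ → ℝ) (y : ℕ → ℝ) (x : ℕ) :
    (aeval E (pol D α)) y x = ∑ l ∈ range (D + 1), α l * y (x + l) := by
  rw [aev' _ D (pol_natDegree D α)]
  refine Finset.sum_congr rfl fun l hl => ?_
  rw [Finset.mem_range] at hl
  rw [pol_coeff D α l (by omega)]

theorem pol_l1 (D : ℕ) (α : ℕ → ℝ) (h : ∃ l ≤ D, 1 ≤ |α l|) : 1 ≤ l1 (pol D α) := by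
  obtain ⟨l, hl, h1⟩ := h
  refine h1.trans ?_
  rw [← pol_coeff D α l hl]
  exact le_l1 _ _

theorem ne_zero_of_l1 (p : ℝ[X]) (h : 1 ≤ l1 p) : p ≠ 0 := by
  rintro rfl
  simp [l1] at h
  linarith

end Pool.Agent.P8H21.NR
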