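import Pool.Agent.P8H60.NR.Stm
import Pool.Agent.P8H21.NR.Base

/-! # Project NR, package A -/

set_option autoImplicit false

namespace Pool.Agent.P8H21.NR

open Polynomial Finset Pool.Agent.P8H60.NR

/-- a nonzero polynomial divides some polynomial in `z ^ s` of at most its own degree -/
theorem exists_Q (A : ℝ[X]) (hA : A ≠ 0) (N : ℕ) (hN : A.natDegree ≤ N) (s : ℕ) :
    ∃ Q : ℝ[X], Q.natDegree ≤ N ∧ (∀ i ≤ N, |Q.coeff i| ≤ 1) ∧ (∃ i ≤ N, |Q.coeff i| = 1) ∧
      A ∣ expand ℝ s Q := by
  let pb := AdjoinRoot.powerBasis hA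
  have : Module.Finite ℝ (AdjoinRoot A) := pb.finite
  have hfr : Module.finrank ℝ (AdjoinRoot A) = A.natDegree := by
    rw [pb.finrank]; exact AdjoinRoot.powerBasis_dim hA
  obtain ⟨f, f_monic, f_deg, f_aeval⟩ := by
    exact (⟨(Algebra.lmul ℝ (AdjoinRoot A) (AdjoinRoot.root A ^ s)).charpoly,
      LinearMap.charpoly_monic _, LinearMap.charpoly_natDegree _, LinearMap.aeval_self_charpoly _⟩ :
      ∃ f : ℝ[X], f.Monic ∧ f.natDegree = Module.finrank ℝ (AdjoinRoot A) ∧
        aeval (Algebra.lmul ℝ (AdjoinRoot A) (AdjoinRoot.root A ^ s)) f = 0)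
  have hz : aeval (AdjoinRoot.root A ^ s) f = 0 := by
    rw [aeval_algHom_apply] at f_aeval
    exact Algebra.lmul_injective (R := ℝ) (by simpa using f_aeval)
  have hdvd : A ∣ expand ℝ s f := by
    rw [← AdjoinRoot.mk_eq_zero, ← AdjoinRoot.aeval_eq, expand_aeval]
    exact hz
  have hdf : f.natDegree ≤ N := by rw [f_deg, hfr]; exact hN
  -- normalise
  obtain ⟨i0, hi0, hmax⟩ := Finset.exists_max_image (range (N + 1)) (fun i => |f.coeff i|)
    ⟨0, by simp⟩
  rw [Finset.mem_range] at hi0
  have hpos : 0 < |f.coeff i0| := by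
    have h1 := hmax f.natDegree (by rw [Finset.mem_range]; omega)
    rw [show f.coeff f.natDegree = 1 from f_monic] at h1
    have : (1 : ℝ) ≤ |f.coeff i0| := by simpa using h1
    linarith
  refine ⟨C (|f.coeff i0|)⁻¹ * f, ?_, ?_, ?_, ?_⟩
  · exact (natDegree_C_mul_le _ _).trans hdf
  · intro i hi
    rw [coeff_C_mul, abs_mul, abs_inv, abs_abs]
    have := hmax i (by rw [Finset.mem_range]; omega)
    rw [inv_mul_le_iff₀ hpos]
    simpa using this
  · refine ⟨i0, by omega, ?_⟩
    rw [coeff_C_mul, abs_mul, abs_inv, abs_abs]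
    exact inv_mul_cancel₀ hpos.ne'
  · rw [map_mul]
    exact hdvd.mul_left _

theorem expand_aev (s : ℕ) (Q : ℝ[X]) (N : ℕ) (hN : Q.natDegree ≤ N) (y : ℕ → ℝ)
    (x : ℕ) : (aeval E (expand ℝ s Q)) y x = ∑ i ∈ range (N + 1), Q.coeff i * y (x + s * i) := by
  rw [expand_aeval, aeval_eq_sum_range' (n := N + 1) (by omega)]
  simp only [LinearMap.sum_apply, Finset.sum_apply, LinearMap.smul_apply, Pi.smul_apply, smul_eq_mul]
  refine Finset.sum_congr rfl fun i _ => ?_
  rw [← pow_mul, E_pow]

/-- package A -/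
theorem a : S_A := by
  intro D s hs
  refine ⟨2 ^ (2 * D * s) * (2 * D + 1 : ℕ), by positivity, ?_⟩
  intro α hα
  set al := pol D α with hal
  set rv := pol D (fun l => α (D - l)) with hrv
  have hal1 : 1 ≤ l1 al := pol_l1 D α hα
  have hrv1 : 1 ≤ l1 rv := by
    refine pol_l1 D _ ?_
    obtain ⟨l, hl, h⟩ := hα
    exact ⟨D - l, by omega, by rwa [Nat.sub_sub_self hl]⟩
  have hal0 : al ≠ 0 := ne_zero_of_l1 _ hal1
  have hrv0 : rv ≠ 0 := ne_zero_of_l1 _ hrv1
  have hdA : (al * rv).natDegree ≤ 2 * D := by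
    refine natDegree_mul_le.trans ?_
    have h1 : al.natDegree ≤ D := pol_natDegree D α
    have h2 : rv.natDegree ≤ D := pol_natDegree D (fun l => α (D - l))
    omega
  obtain ⟨Q, hQd, hQ1, hQe, q, hq⟩ := exists_Q (al * rv) (mul_ne_zero hal0 hrv0) (2 * D) hdA s
  have hQ0 : Q ≠ 0 := by
    rintro rfl
    obtain ⟨i, _, h⟩ := hQe
    simp at h
  have hex0 : expand ℝ s Q ≠ 0 := by
    rwa [Ne, expand_eq_zero hs]
  have hq0 : q ≠ 0 := by
    rintro rfl
    rw [mul_zero] at hq
    exact hex0 hq
  have hdex : (expand ℝ s Q).natDegree ≤ 2 * D * s := by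
    rw [natDegree_expand]
    exact Nat.mul_le_mul_right _ hQd
  have hl1ex : l1 (expand ℝ s Q) ≤ (2 * D + 1 : ℕ) := by
    have e1 : l1 (expand ℝ s Q) = ∑ i ∈ range (2 * D * s + 1), |(expand ℝ s Q).coeff i| := by
      rw [l1_eq]
      refine Finset.sum_subset (Finset.range_subset_range.2 (by omega)) fun i _ hi => ?_
      rw [Finset.mem_range, not_lt] at hi
      rw [coeff_eq_zero_of_natDegree_lt (by omega), abs_zero]
    rw [e1]
    have e2 : ∑ i ∈ range (2 * D * s + 1), |(expand ℝ s Q).coeff i| ≤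
        ∑ i ∈ (range (2 * D + 1)).image (fun j => j * s), (1 : ℝ) := by
      rw [← Finset.sum_filter_add_sum_filter_not (range (2 * D * s + 1))
        (fun i => i ∈ (range (2 * D + 1)).image (fun j => j * s))]
      have e3 : ∑ i ∈ range (2 * D * s + 1) with i ∉ (range (2 * D + 1)).image (fun j => j * s),
          |(expand ℝ s Q).coeff i| = 0 := by
        refine Finset.sum_eq_zero fun i hi => ?_
        rw [Finset.mem_filter, Finset.mem_range] at hi
        rw [coeff_expand (by omega)]
        split_ifs with hdv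
        · exfalso
          apply hi.2
          rw [Finset.mem_image]
          obtain ⟨j, rfl⟩ := hdv
          refine ⟨j, ?_, by ring⟩
          rw [Finset.mem_range]
          have h1 : s * j ≤ s * (2 * D) := by
            have := hi.1
            have e : 2 * D * s = s * (2 * D) := by ring
            omega
          have := Nat.le_of_mul_le_mul_left h1 (by omega)
          omega
        · simp
      rw [e3, add_zero]
      calc ∑ i ∈ range (2 * D * s + 1) with i ∈ (range (2 * D + 1)).image (fun j => j * s),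
          |(expand ℝ s Q).coeff i| ≤
          ∑ i ∈ range (2 * D * s + 1) with i ∈ (range (2 * D + 1)).image (fun j => j * s),
            (1 : ℝ) := by
            refine Finset.sum_le_sum fun i hi => ?_
            rw [Finset.mem_filter, Finset.mem_image] at hi
            obtain ⟨_, j, hj, rfl⟩ := hi
            rw [Finset.mem_range] at hj
            rw [coeff_expand_mul (by omega)]
            exact hQ1 j (by omega)
        _ ≤ _ := by
            refine Finset.sum_le_sum_of_subset_of_nonneg ?_ (fun _ _ _ => zero_le_one)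
            intro i hi
            rw [Finset.mem_filter] at hi
            exact hi.2
    refine e2.trans ?_
    rw [Finset.sum_const, nsmul_eq_mul, mul_one]
    have := Finset.card_image_le (s := range (2 * D + 1)) (f := fun j => j * s)
    rw [Finset.card_range] at this
    exact_mod_cast this
  -- the two bounds
  have hbd : ∀ u v : ℝ[X], u * v = expand ℝ s Q → 1 ≤ l1 u → v ≠ 0 →
      l1 v ≤ 2 ^ (2 * D * s) * (2 * D + 1 : ℕ) := by
    intro u v huv hu hv
    have hG := gelfond u v (ne_zero_of_l1 _ hu) hv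
    rw [huv] at hG
    calc l1 v ≤ l1 u * l1 v := le_mul_of_one_le_left (l1_nonneg _) hu
      _ ≤ _ := hG
      _ ≤ _ := by
        refine mul_le_mul (pow_le_pow_right₀ (by norm_num) hdex) hl1ex (l1_nonneg _) (by positivity)
  have hf1 : al * (rv * q) = expand ℝ s Q := by rw [hq]; ring
  have hb1 : rv * (al * q) = expand ℝ s Q := by rw [hq]; ring
  have hf := hbd al (rv * q) hf1 hal1 (mul_ne_zero hrv0 hq0)
  have hb := hbd rv (al * q) hb1 hrv1 (mul_ne_zero hal0 hq0)
  have hdf : (rv * q).natDegree ≤ 2 * D * s := by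
    have := natDegree_mul hal0 (mul_ne_zero hrv0 hq0)
    rw [hf1] at this
    omega
  have hdb : (al * q).natDegree ≤ 2 * D * s := by
    have := natDegree_mul hrv0 (mul_ne_zero hal0 hq0)
    rw [hb1] at this
    omega
  refine ⟨fun i => Q.coeff i, hQ1, hQe, ?_⟩
  intro y δ J hy x hDx hxJ
  have hδ0 : 0 ≤ δ := (abs_nonneg _).trans (hy 0 (Nat.zero_le _))
  constructor
  · rw [← expand_aev s Q (2 * D) hQd, ← hf1, mul_comm al, map_mul, Module.End.mul_apply]
    refine (aev_bound (rv * q) ((aeval E al) y) x δ ?_).trans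
      (mul_le_mul_of_nonneg_right hf hδ0)
    intro m hm
    rw [hal, pol_aev]
    exact hy _ (by omega)
  · set y' : ℕ → ℝ := fun m => y (x + 2 * D * s - m) with hy'
    have e1 : ∑ i ∈ range (2 * D + 1), Q.coeff i * y (x + s * (2 * D - i)) =
        (aeval E (expand ℝ s Q)) y' 0 := by
      rw [expand_aev s Q (2 * D) hQd]
      refine Finset.sum_congr rfl fun i hi => ?_
      rw [Finset.mem_range] at hi
      congr 2
      rw [Nat.mul_sub, zero_add]
      have : s * i ≤ s * (2 * D) := Nat.mul_le_mul_left _ (by omega)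
      have e : 2 * D * s = s * (2 * D) := by ring
      rw [e]
      omega
    rw [e1, ← hb1, mul_comm rv, map_mul, Module.End.mul_apply]
    refine (aev_bound (al * q) ((aeval E rv) y') 0 δ ?_).trans
      (mul_le_mul_of_nonneg_right hb hδ0)
    intro m hm
    have hm2 : m ≤ 2 * D * s := hm.trans hdb
    rw [hrv, pol_aev, zero_add]
    have e2 : ∑ l ∈ range (D + 1), α (D - l) * y' (m + l) =
        ∑ l ∈ range (D + 1), α l * y (x + 2 * D * s - m - D + l) := by
      rw [← Finset.sum_range_reflect]
      refine Finset.sum_congr rfl fun l hl => ?_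
      rw [Finset.mem_range] at hl
      have h1 : D - (D + 1 - 1 - l) = l := by omega
      have h2 : x + 2 * D * s - (m + (D + 1 - 1 - l)) = x + 2 * D * s - m - D + l := by omega
      rw [h1, hy']
      simp only [h2]
    rw [e2]
    exact hy _ (by omega)

end Pool.Agent.P8H21.NR
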