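import Pool.Agent.P8H60.NR.Stm
import Pool.Agent.P8H21.NR.Base

/-! # Project NR, package P -/

set_option autoImplicit false

namespace Pool.Agent.P8H21.NR

open Polynomial Finset Pool.Agent.P8H60.NR

/-- the differences of high order kill polynomials -/
theorem kill (r : ℕ) (P : ℝ[X]) (hP : P.natDegree < r) :
    (aeval E ((X - C 1) ^ r : ℝ[X])) (fun x : ℕ => P.eval (x : ℝ)) = 0 := by
  induction r generalizing P with
  | zero => omega
  | succ r ih =>
    rw [pow_succ, map_mul, Module.End.mul_apply]
    have h1 : (aeval E ((X - C 1) : ℝ[X])) (fun x : ℕ => P.eval (x : ℝ)) =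
        fun x : ℕ => (P.comp (X + C 1) - P).eval (x : ℝ) := by
      funext x
      rw [map_sub, aeval_X, aeval_C]
      simp [E]
    rw [h1]
    by_cases h0 : P.natDegree = 0
    · have h2 : P.comp (X + C 1) - P = 0 := by
        rw [eq_C_of_natDegree_eq_zero h0]; simp
      rw [h2]
      have : (fun x : ℕ => (0 : ℝ[X]).eval (x : ℝ)) = 0 := by funext x; simp
      rw [this, map_zero]
    · refine ih _ ?_
      have hlt : (P.comp (X + C 1) - P).degree < P.degree := by
        have hP0 : P ≠ 0 := by rintro rfl; simp at h0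
        have hd : (P.comp (X + C 1)).natDegree = P.natDegree := by
          rw [natDegree_comp, natDegree_X_add_C, mul_one]
        have hl : (P.comp (X + C 1)).leadingCoeff = P.leadingCoeff := by
          rw [leadingCoeff_comp (by rw [natDegree_X_add_C]; exact one_ne_zero),
            leadingCoeff_X_add_C, one_pow, mul_one]
        have hc0 : P.comp (X + C 1) ≠ 0 := by
          intro h; rw [h, leadingCoeff_zero] at hl; exact hP0 (leadingCoeff_eq_zero.1 hl.symm)
        have := degree_sub_lt_left (p := P.comp (X + C 1)) (q := P)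
          (by rw [degree_eq_natDegree hc0, degree_eq_natDegree hP0, hd]) hc0 hl
        refine this.trans_le ?_
        rw [degree_eq_natDegree hc0, degree_eq_natDegree hP0, hd]
      by_cases h2 : P.comp (X + C 1) - P = 0
      · rw [h2]; simp; omega
      · have hP0 : P ≠ 0 := by rintro rfl; simp at h0
        rw [degree_eq_natDegree h2, degree_eq_natDegree hP0] at hlt
        have : (P.comp (X + C 1) - P).natDegree < P.natDegree := by exact_mod_cast hlt
        omega

theorem l1_ge_one_of_monic (p : ℝ[X]) (h : p.Monic) : 1 ≤ l1 p := by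
  have := le_l1 p p.natDegree
  rw [show p.coeff p.natDegree = 1 from h] at this
  simpa using this

theorem monicXr (r : ℕ) : ((X - C 1) ^ r : ℝ[X]).Monic := (monic_X_sub_C 1).pow r

theorem l1_Xr (r : ℕ) : l1 ((X - C 1) ^ r : ℝ[X]) ≤ 2 ^ r := by
  have h := l1_le ((X - C 1) ^ r : ℝ[X])
  have h2 : ((X - C 1) ^ r : ℝ[X]).mapMahlerMeasure (algebraMap ℝ ℂ) = 1 := by
    unfold mapMahlerMeasure
    rw [Polynomial.map_pow]
    have : ∀ n : ℕ, ((X - C 1 : ℝ[X]).map (algebraMap ℝ ℂ) ^ n).mahlerMeasure = 1 := by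
      intro n
      induction n with
      | zero => simp
      | succ n ih =>
        rw [pow_succ, mahlerMeasure_mul, ih, one_mul]
        have : (X - C 1 : ℝ[X]).map (algebraMap ℝ ℂ) = X - C 1 := by simp
        rw [this, mahlerMeasure_X_sub_C]
        simp
    exact this r
  rw [h2, natDegree_pow, natDegree_X_sub_C, mul_one, mul_one] at h
  exact h

/-- package P -/
theorem p : S_P := by
  intro d r hr
  set c1 : ℝ := (2 ^ (d + r) * (d + r + 1 : ℕ) : ℝ)⁻¹ with hc1
  have hc1pos : 0 < c1 := by positivity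
  refine ⟨c1 / 2 ^ r, by positivity, ?_⟩
  intro α hα
  set al := pol d α with hal
  have hal1 : 1 ≤ l1 al := pol_l1 d α hα
  have hal0 : al ≠ 0 := ne_zero_of_l1 _ hal1
  set T : ℝ[X] := (X - C 1) ^ r with hT
  have hT0 : T ≠ 0 := (monicXr r).ne_zero
  have hdeg : (al * T).natDegree ≤ d + r := by
    refine natDegree_mul_le.trans (Nat.add_le_add (pol_natDegree d α) ?_)
    rw [hT, natDegree_pow, natDegree_X_sub_C, mul_one]
  -- lower bound for the coefficients
  have hG := gelfond al T hal0 hT0
  have h1 : 1 ≤ 2 ^ (d + r) * l1 (al * T) := by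
    have ha : (1 : ℝ) ≤ l1 al * l1 T := by
      have := l1_ge_one_of_monic T (monicXr r)
      nlinarith
    refine ha.trans (hG.trans ?_)
    refine mul_le_mul_of_nonneg_right ?_ (l1_nonneg _)
    exact pow_le_pow_right₀ (by norm_num) hdeg
  have hex : ∃ l ≤ d + r, c1 ≤ |(al * T).coeff l| := by
    by_contra hcon
    push Not at hcon
    have h2 : l1 (al * T) < (d + r + 1 : ℕ) * c1 := by
      have : l1 (al * T) = ∑ i ∈ range (d + r + 1), |(al * T).coeff i| := by
        rw [l1_eq]
        refine Finset.sum_subset (Finset.range_subset_range.2 (by omega)) fun i _ hi => ?_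
        rw [Finset.mem_range, not_lt] at hi
        rw [coeff_eq_zero_of_natDegree_lt (by omega), abs_zero]
      rw [this]
      have h3 : ∑ i ∈ range (d + r + 1), |(al * T).coeff i| < ∑ i ∈ range (d + r + 1), c1 := by
        refine Finset.sum_lt_sum_of_nonempty (by simp) fun i hi => ?_
        rw [Finset.mem_range] at hi
        exact hcon i (by omega)
      refine h3.trans_le (le_of_eq ?_)
      rw [Finset.sum_const, Finset.card_range, nsmul_eq_mul]
    have h4 : 2 ^ (d + r) * ((d + r + 1 : ℕ) * c1) = 1 := by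
      rw [hc1, ← mul_assoc]
      exact mul_inv_cancel₀ (by positivity)
    have h5 : (2 : ℝ) ^ (d + r) * l1 (al * T) < 1 := by
      rw [← h4]
      exact mul_lt_mul_of_pos_left h2 (by positivity)
    linarith
  refine ⟨fun l => (al * T).coeff l / c1, ?_, ?_⟩
  · obtain ⟨l, hl, h2⟩ := hex
    refine ⟨l, hl, ?_⟩
    rw [abs_div, abs_of_pos hc1pos]
    exact (one_le_div hc1pos).2 h2
  · intro y P δ J hP hy x hx
    -- the left hand side
    have hid : (aeval E T) (fun x : ℕ => ((X : ℝ[X])).eval (x : ℝ)) = 0 :=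
      kill r X (by rw [natDegree_X]; omega)
    have e1 : ∑ l ∈ range (d + r + 1), (al * T).coeff l / c1 * (y (x + l) - (x + l : ℕ)) =
        (1 / c1) * (aeval E (al * T)) (y - fun x : ℕ => ((X : ℝ[X])).eval (x : ℝ)) x := by
      rw [aev' _ (d + r) hdeg, Finset.mul_sum]
      refine Finset.sum_congr rfl fun l _ => ?_
      simp only [Pi.sub_apply, eval_X]
      ring
    have e2 : (aeval E (al * T)) (y - fun x : ℕ => ((X : ℝ[X])).eval (x : ℝ)) =
        (aeval E T) ((aeval E al) y - fun x : ℕ => P.eval (x : ℝ)) := by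
      rw [map_sub, map_sub, kill r P hP, sub_zero]
      have a1 : (aeval E (al * T)) (fun x : ℕ => ((X : ℝ[X])).eval (x : ℝ)) = 0 := by
        rw [map_mul, Module.End.mul_apply, hid, map_zero]
      rw [a1, sub_zero, mul_comm al T, map_mul, Module.End.mul_apply]
    rw [e1, e2, abs_mul, abs_of_pos (by positivity : (0 : ℝ) < 1 / c1)]
    have hδ : 0 ≤ c1 / 2 ^ r * δ := (abs_nonneg _).trans (hy 0 (Nat.zero_le _))
    have hδ0 : 0 ≤ δ := by
      by_contra h
      push Not at h
      have : c1 / 2 ^ r * δ < 0 := mul_neg_of_pos_of_neg (by positivity) h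
      linarith
    have hb := aev_bound T ((aeval E al) y - fun x : ℕ => P.eval (x : ℝ)) x (c1 / 2 ^ r * δ) (by
      intro m hm
      have hm' : m ≤ r := by
        rw [hT, natDegree_pow, natDegree_X_sub_C, mul_one] at hm; exact hm
      have := hy (x + m) (by omega)
      rw [← pol_aev] at this
      simpa using this)
    have hT1 := l1_Xr r
    calc (1 / c1) * |(aeval E T) ((aeval E al) y - fun x : ℕ => P.eval (x : ℝ)) x|
        ≤ (1 / c1) * (l1 T * (c1 / 2 ^ r * δ)) := by gcongr
      _ ≤ (1 / c1) * (2 ^ r * (c1 / 2 ^ r * δ)) := by gcongr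
      _ = δ := by field_simp

end Pool.Agent.P8H21.NR
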